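import Mathlib
import Pool.Agent.H645R3.MC3

/-!
Convergent sequences in minimal precompact groups.

Every infinite Hausdorff precompact minimal topological group contains a non-trivial convergent
sequence; no algebraic hypothesis on the group is needed.  In particular this holds for
precompact minimal solvable and nilpotent groups, countably compact or not.

The proof is built on the files `Pool.Agent.H645R3.MC0`, `MC1`, `MC2`, `MC3` of helper645.
-/

set_option autoImplicit false

open Filter Topology Pointwise

namespace Pool.Agent.Results.MP_47408d_gt.AllPrecompact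

/-- Every infinite Hausdorff topological group `G` which is precompact (for every neighbourhood
`U` of `1` there is a finite `F` with `F * U = G`) and minimal (every coarser Hausdorff group
topology on `G` is equal to the given one) contains a sequence of pairwise distinct points
converging to a point of `G`. -/
theorem result :
    ∀ (G : Type) [Group G] [t : TopologicalSpace G] [IsTopologicalGroup G] [T2Space G]
      [Infinite G],
      (∀ U ∈ 𝓝 (1 : G), ∃ F : Set G, F.Finite ∧ F * U = Set.univ) →
      (∀ t' : TopologicalSpace G, @IsTopologicalGroup G t' _ → @T2Space G t' →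
          t ≤ t' → t' = t) →
      ∃ (u : ℕ → G) (x : G), Function.Injective u ∧ Tendsto u atTop (𝓝 x) := by
  intro G _ t _ _ _ hpc hmin
  have hP : Pool.Agent.H241R3.Nil.Precompact G := by
    intro U hU
    obtain ⟨F, hF, hFU⟩ := hpc U hU
    refine ⟨hF.toFinset, fun x => ?_⟩
    have hx : x ∈ F * U := by
      rw [hFU]
      exact Set.mem_univ x
    obtain ⟨g, hg, y, hy, hgy⟩ := Set.mem_mul.1 hx
    exact ⟨g, hF.mem_toFinset.2 hg, ⟨y, hy, hgy⟩⟩
  have hm : Pool.Agent.H241R3.Nil.Minimal G := fun t' h1 h2 h3 => hmin t' h2 h3 h1
  obtain ⟨g, hg1, hg⟩ := H645.MC.exists_seq hP hm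
  obtain ⟨h, hinj, hlim⟩ := H645.MC.injective_seq 1 g hg1 hg
  exact ⟨h, 1, hinj, hlim⟩

end Pool.Agent.Results.MP_47408d_gt.AllPrecompact
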